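import Mathlib

/-!
# The iterated local permutation polynomial `f_10` over `F_7` has degree less than `50`

For `q = 7` and `n = 10` the coefficient of `∏ x_i^{q-2}` in the reduced form of `f_n` vanishes, so the
degree of `f_n` is less than `n (q - 2)`.
-/

set_option autoImplicit false

open MvPolynomial

namespace Pool.Agent.Results.MP_df70bc_co.Degree50

/-- `t(y) = y + ∑_{k=0}^{q-2} y^k` on a finite field with `q` elements -/
def t {K : Type} [Field K] [Fintype K] (y : K) : K :=
  y + ∑ k ∈ Finset.range (Fintype.card K - 1), y ^ k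

/-- The functions `f_n : K^n → K`: `f_1 = x_1` and `f_n = t (f_{n-1}^{q-2} + x_n^{q-2})` for `n ≥ 2`
(`f_0 = 0` is a placeholder). -/
def f (K : Type) [Field K] [Fintype K] : (n : ℕ) → (Fin n → K) → K
  | 0, _ => 0
  | 1, x => x 0
  | n + 2, x => t (f K (n + 1) (Fin.init x) ^ (Fintype.card K - 2) +
      x (Fin.last (n + 1)) ^ (Fintype.card K - 2))

/-- `P` is the reduced form of the function `F : K^n → K`: the polynomial which induces `F` and has
degree less than `q = |K|` in every variable. -/
def IsReducedForm {K : Type} [Field K] [Fintype K] {n : ℕ} (P : MvPolynomial (Fin n) K)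
    (F : (Fin n → K) → K) : Prop :=
  (∀ i, P.degreeOf i < Fintype.card K) ∧ ∀ x, eval x P = F x

/-- `F_7` -/
abbrev K7 := ZMod 7

instance : Fact (Nat.Prime 7) := ⟨by norm_num⟩

theorem t7 (y : K7) : t y = Equiv.swap 0 1 y := by
  unfold t
  rw [ZMod.card]
  revert y
  decide

theorem f7 (n : ℕ) (x : Fin (n + 2) → K7) :
    f K7 (n + 2) x = Equiv.swap 0 1 (f K7 (n + 1) (Fin.init x) ^ 5 + x (Fin.last (n + 1)) ^ 5) := by
  rw [f, t7, ZMod.card]

theorem pow5 : Function.Bijective (fun x : K7 => x ^ 5) := by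
  rw [← Finite.injective_iff_bijective]
  intro a b
  revert a b
  decide

/-- `f_{n+1}` is a local permutation polynomial -/
theorem lpp (n : ℕ) : ∀ (x : Fin (n + 1) → K7) (i : Fin (n + 1)),
    Function.Bijective (fun a => f K7 (n + 1) (Function.update x i a)) := by
  induction n with
  | zero =>
    intro x i
    have hi : i = 0 := Subsingleton.elim (α := Fin 1) _ _
    subst hi
    have h : (fun a => f K7 (0 + 1) (Function.update x 0 a)) = id := by
      funext a
      simp [f]
    rw [h]
    exact Function.bijective_id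
  | succ n ih =>
    intro x i
    simp only [f7]
    refine (Equiv.bijective _).comp ?_
    refine Fin.lastCases ?_ (fun j => ?_) i
    · simp only [Fin.init_update_last, Function.update_self]
      exact (Equiv.addLeft (f K7 (n + 1) (Fin.init x) ^ 5)).bijective.comp pow5
    · simp only [Fin.init_update_castSucc]
      have h1 : ∀ a : K7, Function.update x j.castSucc a (Fin.last (n + 1)) = x (Fin.last (n + 1)) := by
        intro a
        rw [Function.update_of_ne]
        exact (Fin.castSucc_lt_last j).ne'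
      simp only [h1]
      exact (Equiv.addRight (x (Fin.last (n + 1)) ^ 5)).bijective.comp (pow5.comp (ih _ j))

theorem sum_all : ∑ a : K7, a = 0 := by decide

/-- the weights of the coefficient formula -/
def w (m : ℕ) (y : K7) : K7 := if m = 0 then 1 - y ^ 6 else - y ^ (6 - m)

theorem w_dual : ∀ m < 7, ∀ k < 7, ∑ y : K7, y ^ k * w m y = if k = m then 1 else 0 := by
  decide

theorem coeff_formula {n : ℕ} (P : MvPolynomial (Fin n) K7) (hP : ∀ i, P.degreeOf i < 7)
    (m : Fin n →₀ ℕ) (hm : ∀ i, m i < 7) :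
    ∑ x : Fin n → K7, eval x P * ∏ i, w (m i) (x i) = coeff m P := by
  have h1 : ∀ x : Fin n → K7, eval x P = ∑ k ∈ P.support, coeff k P * ∏ i, x i ^ k i := by
    intro x
    rw [eval_eq']
  simp only [h1, Finset.sum_mul]
  rw [Finset.sum_comm]
  have h2 : ∀ k ∈ P.support, ∑ x : Fin n → K7, coeff k P * (∏ i, x i ^ k i) * ∏ i, w (m i) (x i) =
      if k = m then coeff k P else 0 := by
    intro k hk
    have hk7 : ∀ i, k i < 7 := fun i => lt_of_le_of_lt (monomial_le_degreeOf i hk) (hP i)
    have h3 : ∑ x : Fin n → K7, coeff k P * (∏ i, x i ^ k i) * ∏ i, w (m i) (x i) =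
        coeff k P * ∏ i, ∑ y : K7, y ^ k i * w (m i) y := by
      rw [Finset.prod_univ_sum, Finset.mul_sum]
      rw [Fintype.piFinset_univ]
      refine Finset.sum_congr rfl fun x _ => ?_
      rw [mul_assoc, ← Finset.prod_mul_distrib]
    rw [h3]
    split_ifs with hkm
    · subst hkm
      rw [Finset.prod_eq_one, mul_one]
      intro i _
      rw [w_dual _ (hk7 i) _ (hk7 i), if_pos rfl]
    · have h4 : ∃ i, k i ≠ m i := by
        by_contra hcon
        push Not at hcon
        exact hkm (Finsupp.ext hcon)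
      obtain ⟨i, hi⟩ := h4
      rw [Finset.prod_eq_zero (Finset.mem_univ i), mul_zero]
      rw [w_dual _ (hm i) _ (hk7 i), if_neg hi]
  rw [Finset.sum_congr rfl h2, Finset.sum_ite_eq']
  split_ifs with h5
  · rfl
  · exact (notMem_support_iff.1 h5).symm

/-- the weighted sum over `K^n` -/
def T (n : ℕ) (g : K7 → K7) : K7 := ∑ x : Fin n → K7, g (f K7 n x) * ∏ i, x i

theorem T_one (g : K7 → K7) : T 1 g = ∑ y : K7, g y * y := by
  unfold T
  rw [← (Equiv.funUnique (Fin 1) K7).symm.sum_comp]
  refine Finset.sum_congr rfl fun y _ => ?_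
  simp [f]

theorem T_succ (n : ℕ) (g g' : K7 → K7)
    (h : ∀ u, ∑ z : K7, g (Equiv.swap 0 1 (u ^ 5 + z ^ 5)) * z = g' u) :
    T (n + 2) g = T (n + 1) g' := by
  unfold T
  rw [← (Fin.snocEquiv (fun _ : Fin (n + 2) => K7)).sum_comp, Fintype.sum_prod_type]
  rw [Finset.sum_comm]
  refine Finset.sum_congr rfl fun x _ => ?_
  rw [← h, Finset.sum_mul]
  refine Finset.sum_congr rfl fun z _ => ?_
  rw [f7, Fin.prod_univ_castSucc]
  simp only [Fin.snocEquiv, Equiv.coe_fn_mk, Fin.init_snoc, Fin.snoc_last, Fin.snoc_castSucc]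
  ring

/-- a function on `F_7` given by its table -/
def tb (v : Fin 7 → K7) : K7 → K7 := v

theorem T_ten : T 10 (fun y => y) = 0 := by
  rw [T_succ 8 _ (tb ![5, 5, 2, 5, 3, 5, 3]) (by decide)]
  rw [T_succ 7 _ (tb ![0, 2, 4, 1, 2, 5, 0]) (by decide)]
  rw [T_succ 6 _ (tb ![5, 5, 5, 3, 5, 1, 4]) (by decide)]
  rw [T_succ 5 _ (tb ![0, 2, 1, 0, 4, 0, 0]) (by decide)]
  rw [T_succ 4 _ (tb ![5, 5, 6, 6, 1, 0, 5]) (by decide)]
  rw [T_succ 3 _ (tb ![0, 3, 4, 2, 2, 3, 0]) (by decide)]
  rw [T_succ 2 _ (tb ![4, 4, 0, 3, 6, 2, 2]) (by decide)]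
  rw [T_succ 1 _ (tb ![0, 6, 0, 6, 0, 2, 0]) (by decide)]
  rw [T_succ 0 _ (tb ![1, 1, 5, 0, 6, 6, 2]) (by decide)]
  rw [T_one]
  decide

/-- coefficients of monomials with an exponent `6` vanish -/
theorem coeff_six (P : MvPolynomial (Fin 10) K7) (hP : IsReducedForm P (f K7 10))
    (m : Fin 10 →₀ ℕ) (hm : ∀ i, m i < 7) (i : Fin 10) (hi : m i = 6) : coeff m P = 0 := by
  rw [← coeff_formula P (by simpa [ZMod.card] using hP.1) m hm]
  simp only [hP.2]
  rw [← (Fin.insertNthEquiv (fun _ : Fin 10 => K7) i).sum_comp, Fintype.sum_prod_type,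
    Finset.sum_comm]
  refine Finset.sum_eq_zero fun y _ => ?_
  have h1 : ∀ a : K7, f K7 10 ((Fin.insertNthEquiv (fun _ : Fin 10 => K7) i) (a, y)) *
      ∏ j, w (m j) ((Fin.insertNthEquiv (fun _ : Fin 10 => K7) i) (a, y) j) =
      f K7 10 (Function.update (i.insertNth (0 : K7) y : Fin 10 → K7) i a) *
        (-1 * ∏ j, w (m (i.succAbove j)) (y j)) := by
    intro a
    rw [Fin.update_insertNth, Fin.prod_univ_succAbove _ i]
    simp [Fin.insertNthEquiv, hi, w]
  simp only [h1]
  rw [← Finset.sum_mul]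
  have h2 := (lpp 9 (i.insertNth (0 : K7) y : Fin 10 → K7) i).sum_comp (fun a : K7 => a)
  rw [h2, sum_all, zero_mul]

/-- the coefficient of the monomial with all exponents `5` vanishes -/
theorem coeff_five (P : MvPolynomial (Fin 10) K7) (hP : IsReducedForm P (f K7 10))
    (m : Fin 10 →₀ ℕ) (hm : ∀ i, m i = 5) : coeff m P = 0 := by
  rw [← coeff_formula P (by simpa [ZMod.card] using hP.1) m (fun i => by rw [hm i]; norm_num)]
  simp only [hP.2]
  have h1 : ∀ x : Fin 10 → K7, ∏ i, w (m i) (x i) = ∏ i, x i := by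
    intro x
    simp only [hm, w]
    norm_num
    rw [Finset.prod_neg]
    norm_num
  simp only [h1]
  exact T_ten

/-- Over `F_7` the function `f_10` has a unique reduced form, and the reduced form has total degree
less than `50 = 10 (7 - 2)`. -/
theorem result : (∃! P : MvPolynomial (Fin 10) (ZMod 7), IsReducedForm P (f (ZMod 7) 10)) ∧
    ∀ P : MvPolynomial (Fin 10) (ZMod 7), IsReducedForm P (f (ZMod 7) 10) →
      P.totalDegree < 10 * (7 - 2) := by
  constructor
  · have hex : ∃ P : MvPolynomial (Fin 10) (ZMod 7), IsReducedForm P (f (ZMod 7) 10) := by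
      have h1 : f (ZMod 7) 10 ∈
          (restrictDegree (Fin 10) (ZMod 7) (Fintype.card (ZMod 7) - 1)).map
            (evalₗ (ZMod 7) (Fin 10)) := by
        rw [map_restrict_dom_evalₗ]
        exact Submodule.mem_top
      obtain ⟨P, hP1, hP2⟩ := h1
      refine ⟨P, ?_, ?_⟩
      · intro i
        have h2 : P.degreeOf i ≤ Fintype.card (ZMod 7) - 1 := by
          rw [degreeOf_le_iff]
          intro m hm
          exact (mem_restrictDegree _ _ _).1 hP1 m hm i
        rw [ZMod.card] at h2 ⊢
        omega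
      · intro x
        rw [← hP2]
        rfl
    obtain ⟨P, hP⟩ := hex
    refine ⟨P, hP, fun Q hQ => ?_⟩
    have hP7 : ∀ i, P.degreeOf i < 7 := by simpa [ZMod.card] using hP.1
    have hQ7 : ∀ i, Q.degreeOf i < 7 := by simpa [ZMod.card] using hQ.1
    ext m
    by_cases hm : ∀ i, m i < 7
    · rw [← coeff_formula P hP7 m hm, ← coeff_formula Q hQ7 m hm]
      simp only [hP.2, hQ.2]
    · push Not at hm
      obtain ⟨i, hi⟩ := hm
      have h1 : ∀ R : MvPolynomial (Fin 10) (ZMod 7), (∀ i, R.degreeOf i < 7) → coeff m R = 0 := by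
        intro R hR
        by_contra hcon
        have := monomial_le_degreeOf i (mem_support_iff.2 hcon)
        have := hR i
        omega
      rw [h1 P hP7, h1 Q hQ7]
  · intro P hP
    have hP7 : ∀ i, P.degreeOf i < 7 := by simpa [ZMod.card] using hP.1
    have h1 : P.totalDegree ≤ 49 := by
      unfold totalDegree
      refine Finset.sup_le fun m hm => ?_
      have h2 : ∀ i, m i < 7 := fun i => lt_of_le_of_lt (monomial_le_degreeOf i hm) (hP7 i)
      have h3 : ∀ i, m i ≠ 6 := fun i hi => mem_support_iff.1 hm (coeff_six P hP m h2 i hi)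
      have h4 : ∃ i, m i ≠ 5 := by
        by_contra hcon
        push Not at hcon
        exact mem_support_iff.1 hm (coeff_five P hP m hcon)
      obtain ⟨i, hi⟩ := h4
      rw [Finsupp.sum_fintype _ _ (fun _ => rfl)]
      have h5 : ∑ j, m j < ∑ j : Fin 10, 5 := by
        refine Finset.sum_lt_sum (fun j _ => ?_) ⟨i, Finset.mem_univ i, ?_⟩
        · have := h2 j
          have := h3 j
          omega
        · have := h2 i
          have := h3 i
          omega
      simp only [Finset.sum_const, Finset.card_univ, Fintype.card_fin, smul_eq_mul] at h5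
      omega
    omega

end Pool.Agent.Results.MP_df70bc_co.Degree50
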